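import Pool.Agent.helper88.PF.Spec

/-!
Project pf: row ALI, limits of increasing computable approximations.
-/

namespace PF

theorem ALI (hACP : ACP_stmt) : ALI_stmt := by
  intro α a A hA hmono hlim v
  have hmono2 : ∀ p s t, s ≤ t → A (p, s) ≤ A (p, t) := by
    intro p s t hst
    induction hst with
    | refl => exact le_refl _
    | step _ ih => exact ih.trans (hmono p _)
  have h1 : REPred (fun p => ∃ s, v ≤ A (p, s)) :=
    re_ex (p := fun p s => v ≤ A (p, s))
      (hACP.2.2.2.1 (ℕ × ℕ) α (fun w => v ≤ w) A hA).to_re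
  refine h1.of_eq (fun p => ⟨?_, ?_⟩)
  · rintro ⟨s, hs⟩
    obtain ⟨s₀, h0⟩ := hlim p
    have h2 := hmono2 p s (max s s₀) (le_max_left _ _)
    rw [h0 _ (le_max_right _ _)] at h2
    exact hs.trans h2
  · intro h
    obtain ⟨s₀, h0⟩ := hlim p
    refine ⟨s₀, ?_⟩
    rw [h0 s₀ le_rfl]
    exact h

end PF
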